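import Pool.Agent.Q77.LU.StmH
import Pool.Agent.H906R3.YM.Conc

/-! # Project LU (helper77), jobs ADC and FINC -/

set_option autoImplicit false

namespace Pool.Agent.Q75.LU.ADC

open MeasureTheory Matrix Set Filter Topology
open scoped ContDiff Matrix.Norms.Frobenius
open Pool.Agent.Q77.LU
open Pool.Agent.H906R3

noncomputable section

variable {N n : ℕ} {G : Subgroup (UU N)}

/-- The same data in the form used by the library. -/
def fm (B : LieBasis G n) : YM.Frame G n where
  X := B.X
  ex := B.ex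
  ex_eq := B.ex_eq
  orth := B.orth
  full := B.full

lemma mt_mul (g h : G) : mt (g * h) = mt g * mt h := rfl

lemma mt_one : mt (1 : G) = 1 := rfl

lemma mt_unit (g : G) : mt g * (mt g)ᴴ = 1 := YM.rhoG_unit g

lemma mt_unit' (g : G) : (mt g)ᴴ * mt g = 1 := YM.rhoG_unit' g

lemma mt_inj {g h : G} (e : mt g = mt h) : g = h := Subtype.ext (Subtype.ext e)

lemma mt_cont : Continuous (mt : G → Mt N) := continuous_subtype_val.comp continuous_subtype_val

lemma conj_mem (B : LieBasis G n) (g : G) (a : Fin n) :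
    mt g * B.X a * (mt g)ᴴ ∈ Submodule.span ℝ (Set.range B.X) := (fm B).conj_mem g a

lemma deriv_ex (B : LieBasis G n) (a : Fin n) : HasDerivAt (fun t => mt (B.ex a t)) (B.X a) 0 :=
  (fm B).deriv_ex a

/-- trace form -/
lemma tr_sum (B : LieBasis G n) (a : Fin n) (c : Fin n → ℝ) :
    (trace ((B.X a)ᴴ * ∑ b, c b • B.X b)).re = c a := by
  rw [Finset.mul_sum, trace_sum, Complex.re_sum]
  have h1 : ∀ b, (trace ((B.X a)ᴴ * c b • B.X b)).re = c b * if a = b then 1 else 0 := by
    intro b
    rw [mul_smul_comm, trace_smul, Complex.smul_re, B.orth, smul_eq_mul]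
  simp only [h1]
  simp

lemma lin_coord (B : LieBasis G n) {Y : Mt N} (hY : Y ∈ Submodule.span ℝ (Set.range B.X)) :
    lin B (fun a => (trace ((B.X a)ᴴ * Y)).re) = Y := by
  obtain ⟨c, rfl⟩ := (Submodule.mem_span_range_iff_exists_fun ℝ).1 hY
  unfold lin
  refine Finset.sum_congr rfl fun a _ => ?_
  exact congrArg (fun r : ℝ => r • B.X a) (tr_sum B a c)

lemma conj_lin_mem (B : LieBasis G n) (g : G) (v : Fin n → ℝ) :
    mt g * lin B v * (mt g)ᴴ ∈ Submodule.span ℝ (Set.range B.X) := by
  unfold lin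
  rw [Finset.mul_sum, Finset.sum_mul]
  refine Submodule.sum_mem _ fun a _ => ?_
  rw [mul_smul_comm, smul_mul_assoc]
  exact Submodule.smul_mem _ _ (conj_mem B g a)

lemma lin_Ad (B : LieBasis G n) (h : G) (v : Fin n → ℝ) :
    lin B (Ad B h v) = mt h * lin B v * (mt h)ᴴ := lin_coord B (conj_lin_mem B h v)

lemma fro2_lin (B : LieBasis G n) (v : Fin n → ℝ) : fro2 (lin B v) = n2 v := by
  unfold fro2 lin n2
  rw [conjTranspose_sum, Finset.sum_mul, trace_sum, Complex.re_sum]
  refine Finset.sum_congr rfl fun a _ => ?_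
  rw [conjTranspose_smul, smul_mul_assoc, trace_smul, star_trivial, Complex.smul_re, tr_sum, smul_eq_mul, sq]

lemma fro2_conj (h : G) (Y : Mt N) : fro2 (mt h * Y * (mt h)ᴴ) = fro2 Y := by
  unfold fro2
  rw [conjTranspose_mul, conjTranspose_mul, conjTranspose_conjTranspose]
  have h1 : mt h * (Yᴴ * (mt h)ᴴ) * (mt h * Y * (mt h)ᴴ) = mt h * (Yᴴ * Y * (mt h)ᴴ) := by
    calc mt h * (Yᴴ * (mt h)ᴴ) * (mt h * Y * (mt h)ᴴ) = mt h * (Yᴴ * ((mt h)ᴴ * mt h) * Y * (mt h)ᴴ) := by
          simp only [Matrix.mul_assoc]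
      _ = _ := by rw [mt_unit', Matrix.mul_one]
  rw [h1, trace_mul_comm, Matrix.mul_assoc, mt_unit', Matrix.mul_one]

lemma n2_Ad (B : LieBasis G n) (h : G) (v : Fin n → ℝ) : n2 (Ad B h v) = n2 v := by
  rw [← fro2_lin B, lin_Ad, fro2_conj, fro2_lin]

/-- conjugation by a group element and the exponential -/
lemma exp_conj (B : LieBasis G n) (h : G) (v : Fin n → ℝ) :
    NormedSpace.exp (lin B (Ad B h v)) = mt h * NormedSpace.exp (lin B v) * (mt h)ᴴ := by
  rw [lin_Ad]
  have hu : IsUnit (mt h) := ⟨⟨mt h, (mt h)ᴴ, mt_unit h, mt_unit' h⟩, rfl⟩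
  have hinv : (mt h)⁻¹ = (mt h)ᴴ := Matrix.inv_eq_right_inv (mt_unit h)
  have h1 := Matrix.exp_conj (mt h) (lin B v) hu
  rwa [hinv] at h1

lemma nhds_one {ε : ℝ} (hε : 0 < ε) : {g : G | ‖mt g - 1‖ < ε} ∈ 𝓝 (1 : G) := by
  have hc : Continuous fun g : G => ‖mt g - 1‖ := (mt_cont.sub continuous_const).norm
  have ho : IsOpen {g : G | ‖mt g - 1‖ < ε} := isOpen_lt hc continuous_const
  refine ho.mem_nhds ?_
  change ‖mt (1 : G) - 1‖ < ε
  rw [mt_one, sub_self, norm_zero]
  exact hε

theorem t_ADC (_h1 : S_EXPG) (h2 : S_LOGC) : S_ADC := by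
  intro N n G hG hconn B z hz
  obtain ⟨lg, ρ, ε, hρ, hε, _, _, hlog⟩ := h2 N n G hG B
  -- `z` commutes with `X a`
  have hcom : ∀ a, Commute (mt z) (B.X a) := by
    intro a
    have h3 : mt z * B.X a * (mt z)ᴴ * mt z = B.X a * mt z := by rw [hz a]
    rw [Matrix.mul_assoc, mt_unit', Matrix.mul_one] at h3
    exact h3
  have hlin : ∀ v, Commute (mt z) (lin B v) := by
    intro v
    unfold lin
    exact Commute.sum_right _ _ _ fun a _ => (hcom a).smul_right (v a)
  have hexp : ∀ v, Commute (mt z) (NormedSpace.exp (lin B v)) := fun v => (hlin v).exp_right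
  have hnear : ∀ g : G, ‖mt g - 1‖ < ε → g * z = z * g := by
    intro g hg
    obtain ⟨_, h4⟩ := hlog g hg
    apply mt_inj
    rw [mt_mul, mt_mul, h4]
    exact (hexp _).symm
  set C : Subgroup G := Subgroup.centralizer {z} with hC
  have hmem : ∀ g : G, g ∈ C ↔ z * g = g * z := by
    intro g
    rw [hC, Subgroup.mem_centralizer_iff]
    simp
  have hnhds : (C : Set G) ∈ 𝓝 (1 : G) := by
    filter_upwards [nhds_one (G := G) hε] with g hg
    exact (hmem g).2 (hnear g hg).symm
  have hopen : IsOpen (C : Set G) := C.isOpen_of_mem_nhds hnhds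
  have hclosed : IsClosed (C : Set G) := C.isClosed_of_isOpen hopen
  have huniv : (C : Set G) = Set.univ := by
    rcases isClopen_iff.1 (⟨hclosed, hopen⟩ : IsClopen (C : Set G)) with h | h
    · exact absurd h (Set.Nonempty.ne_empty ⟨1, C.one_mem⟩)
    · exact h
  rw [Subgroup.mem_center_iff]
  intro g
  have hg : g ∈ (C : Set G) := by rw [huniv]; trivial
  exact ((hmem g).1 hg).symm

theorem t_FINC (_h1 : S_EXPG) (h2 : S_LOGC) : S_FINC := by
  intro N n G hG B hNC
  obtain ⟨lg, ρ, ε, hρ, hε, _, hlgexp, hlog⟩ := h2 N n G hG B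
  have : CompactSpace G := isCompact_iff_compactSpace.1 hG.isCompact
  -- central elements near 1 are trivial
  have key : ∀ z : G, z ∈ Subgroup.center G → ‖mt z - 1‖ < ε → z = 1 := by
    intro z hz hzε
    obtain ⟨hv, hzexp⟩ := hlog z hzε
    set v := lg (mt z) with hvd
    have hAd : ∀ h : G, Ad B h v = v := by
      intro h
      have h3 : NormedSpace.exp (lin B (Ad B h v)) = NormedSpace.exp (lin B v) := by
        rw [exp_conj, ← hzexp]
        have h4 : h * z = z * h := (Subgroup.mem_center_iff.1 hz) h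
        have h5 : mt h * mt z = mt z * mt h := by rw [← mt_mul, ← mt_mul, h4]
        rw [h5, Matrix.mul_assoc, mt_unit, Matrix.mul_one]
      have h4 := hlgexp (Ad B h v) (by rw [n2_Ad]; exact hv)
      rw [h3, hlgexp v hv] at h4
      exact h4.symm
    have hcomm : ∀ h : G, mt h * lin B v = lin B v * mt h := by
      intro h
      have h3 : mt h * lin B v * (mt h)ᴴ * mt h = lin B v * mt h := by
        rw [← lin_Ad, hAd]
      rwa [Matrix.mul_assoc, mt_unit', Matrix.mul_one] at h3
    have hv0 : v = 0 := by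
      apply hNC
      intro a
      have h3 := (deriv_ex B a).mul_const (lin B v)
      have h4 := (deriv_ex B a).const_mul (lin B v)
      have h5 : (fun t => mt (B.ex a t) * lin B v) = fun t => lin B v * mt (B.ex a t) :=
        funext fun t => hcomm (B.ex a t)
      rw [h5] at h3
      exact h4.unique h3
    apply mt_inj
    rw [hzexp, hv0, mt_one]
    unfold lin
    simp
  have hcl : IsClosed ((Subgroup.center G : Subgroup G) : Set G) := by
    have h3 : ((Subgroup.center G : Subgroup G) : Set G) = ⋂ g : G, {z | g * z = z * g} := by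
      ext z
      simp [Subgroup.mem_center_iff]
    rw [h3]
    exact isClosed_iInter fun g => isClosed_eq (continuous_const.mul continuous_id)
      (continuous_id.mul continuous_const)
  have : CompactSpace (Subgroup.center G) := isCompact_iff_compactSpace.1 hcl.isCompact
  have : DiscreteTopology (Subgroup.center G) := by
    apply discreteTopology_of_isOpen_singleton_one
    have hc : Continuous fun g : Subgroup.center G => ‖mt (g : G) - 1‖ :=
      ((mt_cont.comp continuous_subtype_val).sub continuous_const).norm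
    have ho : IsOpen {g : Subgroup.center G | ‖mt (g : G) - 1‖ < ε} := isOpen_lt hc continuous_const
    have h3 : {g : Subgroup.center G | ‖mt (g : G) - 1‖ < ε} = {1} := by
      ext g
      simp only [Set.mem_setOf_eq, Set.mem_singleton_iff]
      constructor
      · intro h
        exact Subtype.ext (key g.1 g.2 h)
      · rintro rfl
        change ‖mt (1 : G) - 1‖ < ε
        rw [mt_one, sub_self, norm_zero]
        exact hε
    rwa [h3] at ho
  exact finite_of_compact_of_discrete

end

end Pool.Agent.Q75.LU.ADC
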