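import Pool.Agent.Q150.LU.Lin
import Pool.Agent.Q77.LU.StmK

/-! # Project LU (helper77), job DSUM: the levels of a direct sum of copies -/

set_option autoImplicit false

open MeasureTheory Set Filter Topology
open scoped ContDiff

namespace Pool.Agent.Q75.LU.DS

open Pool.Agent.Q77.LU
open Pool.Agent.Q150.LU (bil pd_cont pd_supp ci_comb)

/-! ### linear algebra -/

section abs

variable {X : Type*} [NormedAddCommGroup X] [InnerProductSpace ℝ X]

/-- simultaneous diagonalisation on a finite dimensional subspace -/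
theorem diag (V : Submodule ℝ X) [FiniteDimensional ℝ V] (Q : X →ₗ[ℝ] X →ₗ[ℝ] ℝ)
    (hQ : ∀ x y, Q x y = Q y x) : ∃ (d : ℕ) (e : Fin d → X) (ν : Fin d → ℝ),
    (∀ i j, inner ℝ (e i) (e j) = if i = j then 1 else 0) ∧
    (∀ i j, Q (e i) (e j) = if i = j then ν i else 0) ∧
    ∀ x ∈ V, x = ∑ i, (inner ℝ (e i) x : ℝ) • e i := by
  set b := stdOrthonormalBasis ℝ V with hb
  set T : V →ₗ[ℝ] V := ∑ i, ((Q.flip (b i : X)).comp V.subtype).smulRight (b i) with hT
  have hTa : ∀ x y : V, inner ℝ (T x) y = Q (x : X) (y : X) := by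
    intro x y
    have h1 : T x = ∑ i, (Q (x : X) (b i : X)) • b i := by
      rw [hT, LinearMap.sum_apply]
      rfl
    rw [h1, sum_inner]
    have h2 : (y : X) = ∑ i, (inner ℝ (b i) y : ℝ) • (b i : X) := by
      have h3 := congrArg (fun v : V => (v : X)) (b.sum_repr' y).symm
      simpa using h3
    conv_rhs => rw [h2, map_sum]
    refine Finset.sum_congr rfl fun i _ => ?_
    rw [map_smul, real_inner_smul_left, smul_eq_mul, mul_comm]
  have hsym : T.IsSymmetric := by
    intro x y
    rw [hTa, real_inner_comm, hTa, hQ]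
  set e := hsym.eigenvectorBasis rfl with he
  refine ⟨Module.finrank ℝ V, fun i => (e i : X), hsym.eigenvalues rfl, ?_, ?_, ?_⟩
  · intro i j
    have h1 := e.orthonormal
    rw [orthonormal_iff_ite] at h1
    exact h1 i j
  · intro i j
    rw [← hTa, he, hsym.apply_eigenvectorBasis, real_inner_smul_left]
    have h1 := e.orthonormal
    rw [orthonormal_iff_ite] at h1
    have h2 := h1 i j
    rw [he] at h2
    rw [h2]
    split_ifs <;> simp
  · intro x hx
    have h3 := congrArg (fun v : V => (v : X)) (e.sum_repr' ⟨x, hx⟩).symm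
    simpa using h3

/-- minimum-maximum principle for a direct sum -/
theorem minmax {W : Type} [Fintype W] [Nonempty W] (Q : X →ₗ[ℝ] X →ₗ[ℝ] ℝ)
    (hQ : ∀ x y, Q x y = Q y x) (k : ℕ) (t : Fin (k + 1) → W → X) (β Λ : ℝ) (hβ : 0 < β)
    (h1 : ∀ c : Fin (k + 1) → ℝ, β * ∑ i, c i ^ 2 ≤ ∑ z, (inner ℝ (∑ i, c i • t i z) (∑ i, c i • t i z) : ℝ))
    (h2 : ∀ c : Fin (k + 1) → ℝ, ∑ z, Q (∑ i, c i • t i z) (∑ i, c i • t i z) ≤
      Λ * ∑ z, (inner ℝ (∑ i, c i • t i z) (∑ i, c i • t i z) : ℝ)) :
    ∃ φ : Fin (k / Fintype.card W + 1) → X,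
      (∀ i j, inner ℝ (φ i) (φ j) = if i = j then 1 else 0) ∧
      ∀ c : Fin (k / Fintype.card W + 1) → ℝ, Q (∑ i, c i • φ i) (∑ i, c i • φ i) ≤ Λ * ∑ i, c i ^ 2 := by
  classical
  set V : Submodule ℝ X := Submodule.span ℝ (Set.range fun p : Fin (k + 1) × W => t p.1 p.2) with hV
  have : FiniteDimensional ℝ V := FiniteDimensional.span_of_finite ℝ (Set.finite_range _)
  obtain ⟨d, e, ν, ho, hν, hex⟩ := diag V Q hQ
  set S : Finset (Fin d) := Finset.univ.filter fun j => ν j ≤ Λ with hS
  set q := k / Fintype.card W with hq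
  by_cases hc : q + 1 ≤ S.card
  · set em := S.orderEmbOfCardLe hc with hem
    refine ⟨fun i => e (em i), ?_, ?_⟩
    · intro i j
      rw [ho]
      simp [em.injective.eq_iff]
    · intro c
      have h3 : Q (∑ i, c i • e (em i)) (∑ i, c i • e (em i)) = ∑ i, c i ^ 2 * ν (em i) := by
        rw [map_sum Q, LinearMap.sum_apply]
        refine Finset.sum_congr rfl fun i _ => ?_
        rw [map_sum (Q (c i • e (em i)))]
        rw [Finset.sum_eq_single i]
        · rw [map_smul Q, map_smul (c i • Q (e (em i))), LinearMap.smul_apply, hν, if_pos rfl, smul_eq_mul, smul_eq_mul]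
          ring
        · intro j _ hj
          rw [map_smul Q, map_smul (c i • Q (e (em i))), LinearMap.smul_apply, hν, if_neg]
          · simp
          · intro h
            exact hj (em.injective h).symm
        · simp
      rw [h3, Finset.mul_sum]
      refine Finset.sum_le_sum fun i _ => ?_
      have h4 : em i ∈ S := S.orderEmbOfCardLe_mem hc i
      have h5 : ν (em i) ≤ Λ := (Finset.mem_filter.1 h4).2
      nlinarith [sq_nonneg (c i)]
  · exfalso
    push Not at hc
    have hSq : S.card ≤ q := by omega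
    have hm0 : 0 < Fintype.card W := Fintype.card_pos
    have hdim : S.card * Fintype.card W ≤ k :=
      (Nat.mul_le_mul_right _ hSq).trans (Nat.div_mul_le_self k (Fintype.card W))
    set M : (Fin (k + 1) → ℝ) →ₗ[ℝ] (S × W → ℝ) :=
      { toFun := fun c p => inner ℝ (e p.1) (∑ i, c i • t i p.2)
        map_add' := by
          intro c c'
          funext p
          simp only [Pi.add_apply, add_smul, Finset.sum_add_distrib, inner_add_right]
        map_smul' := by
          intro r c
          funext p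
          simp only [Pi.smul_apply, smul_eq_mul, mul_smul, RingHom.id_apply, ← Finset.smul_sum,
            real_inner_smul_right] } with hM
    have hker : LinearMap.ker M ≠ ⊥ := by
      apply LinearMap.ker_ne_bot_of_finrank_lt
      rw [Module.finrank_fintype_fun_eq_card, Module.finrank_fintype_fun_eq_card, Fintype.card_prod,
        Fintype.card_coe, Fintype.card_fin]
      omega
    obtain ⟨c, hcM, hc0⟩ := (Submodule.ne_bot_iff _).1 hker
    have hzero : ∀ j ∈ S, ∀ z, (inner ℝ (e j) (∑ i, c i • t i z) : ℝ) = 0 := by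
      intro j hj z
      have h3 : M c = 0 := hcM
      exact congrFun h3 (⟨j, hj⟩, z)
    have hfV : ∀ z, ∑ i, c i • t i z ∈ V := by
      intro z
      refine Submodule.sum_mem _ fun i _ => Submodule.smul_mem _ _ ?_
      exact Submodule.subset_span ⟨(i, z), rfl⟩
    have hQf : ∀ z, Q (∑ i, c i • t i z) (∑ i, c i • t i z) =
        ∑ j, ν j * (inner ℝ (e j) (∑ i, c i • t i z) : ℝ) ^ 2 := by
      intro z
      generalize hx : ∑ i, c i • t i z = x
      have hxV : x ∈ V := hx ▸ hfV z
      have h3 := hex x hxV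
      have h4 : Q x x = Q (∑ j, (inner ℝ (e j) x : ℝ) • e j) (∑ j, (inner ℝ (e j) x : ℝ) • e j) := by
        rw [← h3]
      rw [h4, map_sum Q, LinearMap.sum_apply]
      refine Finset.sum_congr rfl fun i _ => ?_
      rw [map_sum (Q ((inner ℝ (e i) x : ℝ) • e i)), Finset.sum_eq_single i]
      · rw [map_smul Q, map_smul ((inner ℝ (e i) x : ℝ) • Q (e i)), LinearMap.smul_apply, hν, if_pos rfl, smul_eq_mul, smul_eq_mul]
        ring
      · intro j _ hj
        rw [map_smul Q, map_smul ((inner ℝ (e i) x : ℝ) • Q (e i)), LinearMap.smul_apply, hν, if_neg (Ne.symm hj)]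
        simp
      · simp
    have hNf : ∀ z, (inner ℝ (∑ i, c i • t i z) (∑ i, c i • t i z) : ℝ) =
        ∑ j, (inner ℝ (e j) (∑ i, c i • t i z) : ℝ) ^ 2 := by
      intro z
      generalize hx : ∑ i, c i • t i z = x
      have hxV : x ∈ V := hx ▸ hfV z
      have h3 := hex x hxV
      have h4 : (inner ℝ x x : ℝ) = inner ℝ (∑ j, (inner ℝ (e j) x : ℝ) • e j) x := by
        rw [← h3]
      rw [h4, sum_inner]
      refine Finset.sum_congr rfl fun i _ => ?_
      rw [real_inner_smul_left, sq]
    have hsum : ∑ z, ∑ j, (ν j - Λ) * (inner ℝ (e j) (∑ i, c i • t i z) : ℝ) ^ 2 ≤ 0 := by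
      have h3 := h2 c
      simp only [hQf, hNf] at h3
      have h4 : ∑ z, ∑ j, (ν j - Λ) * (inner ℝ (e j) (∑ i, c i • t i z) : ℝ) ^ 2 =
          (∑ z, ∑ j, ν j * (inner ℝ (e j) (∑ i, c i • t i z) : ℝ) ^ 2) -
          Λ * ∑ z, ∑ j, (inner ℝ (e j) (∑ i, c i • t i z) : ℝ) ^ 2 := by
        rw [Finset.mul_sum, ← Finset.sum_sub_distrib]
        refine Finset.sum_congr rfl fun z _ => ?_
        rw [Finset.mul_sum, ← Finset.sum_sub_distrib]
        exact Finset.sum_congr rfl fun j _ => by ring
      linarith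
    have hterm : ∀ z j, 0 ≤ (ν j - Λ) * (inner ℝ (e j) (∑ i, c i • t i z) : ℝ) ^ 2 := by
      intro z j
      by_cases hj : j ∈ S
      · rw [hzero j hj z]
        simp
      · have h3 : Λ < ν j := by
          by_contra h
          exact hj (Finset.mem_filter.2 ⟨Finset.mem_univ _, not_lt.1 h⟩)
        have h4 := sq_nonneg (inner ℝ (e j) (∑ i, c i • t i z) : ℝ)
        exact mul_nonneg (by linarith) h4
    have hall : ∀ z j, (inner ℝ (e j) (∑ i, c i • t i z) : ℝ) = 0 := by
      intro z j
      by_cases hj : j ∈ S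
      · exact hzero j hj z
      · have h3 : Λ < ν j := by
          by_contra h
          exact hj (Finset.mem_filter.2 ⟨Finset.mem_univ _, not_lt.1 h⟩)
        have h5 : ∑ z, ∑ j, (ν j - Λ) * (inner ℝ (e j) (∑ i, c i • t i z) : ℝ) ^ 2 = 0 :=
          le_antisymm hsum (Finset.sum_nonneg fun z _ => Finset.sum_nonneg fun j _ => hterm z j)
        have h6 := (Finset.sum_eq_zero_iff_of_nonneg
          (fun z _ => Finset.sum_nonneg fun j _ => hterm z j)).1 h5 z (Finset.mem_univ z)
        have h7 := (Finset.sum_eq_zero_iff_of_nonneg (fun j _ => hterm z j)).1 h6 j (Finset.mem_univ j)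
        have h8 : (inner ℝ (e j) (∑ i, c i • t i z) : ℝ) ^ 2 = 0 := by
          rcases mul_eq_zero.1 h7 with h | h
          · linarith
          · exact h
        exact pow_eq_zero_iff (n := 2) (by norm_num) |>.1 h8
    have h3 := h1 c
    simp only [hNf, hall] at h3
    simp only [ne_eq, OfNat.ofNat_ne_zero, not_false_eq_true, zero_pow, Finset.sum_const_zero] at h3
    have h4 : ∑ i, c i ^ 2 ≤ 0 := by
      by_contra h
      push Not at h
      have := mul_pos hβ h
      linarith
    apply hc0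
    funext i
    have h5 := Finset.single_le_sum (f := fun i => c i ^ 2) (fun i _ => sq_nonneg (c i)) (Finset.mem_univ i)
    have h6 : c i ^ 2 ≤ 0 := h5.trans h4
    have h7 : c i ^ 2 = 0 := le_antisymm h6 (sq_nonneg _)
    exact pow_eq_zero_iff (n := 2) (by norm_num) |>.1 h7

end abs

/-! ### the space of invariant functions -/

section conc

variable {P : Type} [Fintype P] [DecidableEq P] (𝒢 : Set ((P → ℝ) → (P → ℝ)))

lemma ci_add {f h : (P → ℝ) → ℝ} (hf : CI 𝒢 f) (hh : CI 𝒢 h) : CI 𝒢 (f + h) :=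
  ⟨hf.sm.add hh.sm, hf.supp.add hh.supp, fun σ hσ x => by
    rw [Pi.add_apply, Pi.add_apply, hf.inv σ hσ, hh.inv σ hσ]⟩

lemma ci_smul (r : ℝ) {f : (P → ℝ) → ℝ} (hf : CI 𝒢 f) : CI 𝒢 (r • f) :=
  ⟨contDiff_const.smul hf.sm, hf.supp.smul_left, fun σ hσ x => by
    rw [Pi.smul_apply, Pi.smul_apply, hf.inv σ hσ]⟩

/-- the space -/
def XS : Submodule ℝ ((P → ℝ) → ℝ) where
  carrier := {f | CI 𝒢 f}
  add_mem' := fun h1 h2 => ci_add 𝒢 h1 h2
  zero_mem' := ⟨contDiff_const, HasCompactSupport.zero, fun _ _ _ => rfl⟩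
  smul_mem' := fun r _ h => ci_smul 𝒢 r h

variable {𝒢}

lemma c1 (f : XS 𝒢) : ContDiff ℝ 1 f.1 := f.2.sm.of_le (by norm_cast)

lemma xs_int (f h : XS 𝒢) : Integrable fun x => f.1 x * h.1 x :=
  (f.2.sm.continuous.mul h.2.sm.continuous).integrable_of_hasCompactSupport
    (f.2.supp.mul_right (f' := h.1))

/-- the scalar product -/
noncomputable def core : InnerProductSpace.Core ℝ (XS 𝒢) where
  inner f h := ∫ x, f.1 x * h.1 x
  conj_inner_symm f h := by
    simp only [conj_trivial]
    congr 1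
    funext x
    ring
  re_inner_nonneg f := by
    simp only [RCLike.re_to_real]
    exact integral_nonneg fun x => mul_self_nonneg _
  add_left f f' h := by
    rw [← integral_add (xs_int f h) (xs_int f' h)]
    congr 1
    funext x
    simp only [Submodule.coe_add, Pi.add_apply]
    ring
  smul_left f h r := by
    simp only [conj_trivial]
    rw [← integral_const_mul]
    congr 1
    funext x
    simp only [Submodule.coe_smul, Pi.smul_apply, smul_eq_mul]
    ring
  definite f hf := by
    apply Subtype.ext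
    funext x
    by_contra hne
    have h1 : Continuous fun x => f.1 x * f.1 x := f.2.sm.continuous.mul f.2.sm.continuous
    have h2 := h1.integral_pos_of_hasCompactSupport_nonneg_nonzero (μ := volume) (x := x)
      (f.2.supp.mul_right (f' := f.1)) (fun x => mul_self_nonneg _) (mul_self_ne_zero.2 hne)
    have h3 : ∫ x, f.1 x * f.1 x = 0 := hf
    linarith

lemma bil_int (f h : XS 𝒢) {v : (P → ℝ) → ℝ} (hv : Continuous v) (a b : ℝ) :
    Integrable fun C => a * (∑ p, pd f.1 p C * pd h.1 p C) + b * v C * (f.1 C * h.1 C) := by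
  apply Integrable.add
  · apply Integrable.const_mul
    apply integrable_finsetSum
    intro p _
    exact ((pd_cont (c1 f) p).mul (pd_cont (c1 h) p)).integrable_of_hasCompactSupport
      ((pd_supp f.2.supp p).mul_right)
  · have h1 : Continuous fun C => b * v C * (f.1 C * h.1 C) :=
      (continuous_const.mul hv).mul (f.2.sm.continuous.mul h.2.sm.continuous)
    exact h1.integrable_of_hasCompactSupport ((f.2.supp.mul_right (f' := h.1)).mul_left)

lemma pd_add' (f h : XS 𝒢) (p : P) (C : P → ℝ) : pd (f + h : XS 𝒢).1 p C = pd f.1 p C + pd h.1 p C := by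
  unfold pd
  have h1 : (f + h : XS 𝒢).1 = f.1 + h.1 := rfl
  rw [h1, fderiv_add ((c1 f).differentiable (by simp) C) ((c1 h).differentiable (by simp) C)]
  rfl

lemma pd_smul' (r : ℝ) (f : XS 𝒢) (p : P) (C : P → ℝ) : pd (r • f : XS 𝒢).1 p C = r * pd f.1 p C := by
  unfold pd
  have h1 : (r • f : XS 𝒢).1 = r • f.1 := rfl
  rw [h1, fderiv_const_smul ((c1 f).differentiable (by simp) C)]
  rfl

/-- the energy form -/
noncomputable def QQ {v : (P → ℝ) → ℝ} (hv : Continuous v) (a b : ℝ) : XS 𝒢 →ₗ[ℝ] XS 𝒢 →ₗ[ℝ] ℝ :=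
  LinearMap.mk₂ ℝ (fun f h => bil a b v f.1 h.1)
    (by
      intro f f' h
      unfold bil
      rw [← integral_add (bil_int f h hv a b) (bil_int f' h hv a b)]
      congr 1
      funext C
      simp only [pd_add', add_mul, Finset.sum_add_distrib]
      simp only [Submodule.coe_add, Pi.add_apply]
      ring)
    (by
      intro r f h
      unfold bil
      rw [smul_eq_mul, ← integral_const_mul]
      congr 1
      funext C
      simp only [pd_smul', mul_assoc, ← Finset.mul_sum]
      simp only [Submodule.coe_smul, Pi.smul_apply, smul_eq_mul]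
      ring)
    (by
      intro f h h'
      unfold bil
      rw [← integral_add (bil_int f h hv a b) (bil_int f h' hv a b)]
      congr 1
      funext C
      simp only [pd_add', mul_add, Finset.sum_add_distrib]
      simp only [Submodule.coe_add, Pi.add_apply]
      ring)
    (by
      intro r f h
      unfold bil
      rw [smul_eq_mul, ← integral_const_mul]
      congr 1
      funext C
      have h1 : ∀ p, pd f.1 p C * (r * pd h.1 p C) = r * (pd f.1 p C * pd h.1 p C) := fun p => by ring
      simp only [pd_smul', h1, ← Finset.mul_sum]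
      simp only [Submodule.coe_smul, Pi.smul_apply, smul_eq_mul]
      ring)

lemma coe_sum {m : ℕ} (c : Fin m → ℝ) (f : Fin m → XS 𝒢) :
    (∑ i, c i • f i : XS 𝒢).1 = fun C => ∑ i, c i * (f i).1 C := by
  funext C
  rw [Submodule.coe_sum, Finset.sum_apply]
  rfl

end conc

theorem t_DSUM (h : S_SCL) : S_DSUM := by
  intro P Q W _ _ _ _ _ _ L 𝒢 h𝒢 g hg k t β Λ hβ hCI h1 h2
  letI : NormedAddCommGroup (XS 𝒢) := core.toNormedAddCommGroup
  letI : InnerProductSpace ℝ (XS 𝒢) := InnerProductSpace.ofCore core.toCore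
  have hin : ∀ f f' : XS 𝒢, (inner ℝ f f' : ℝ) = ∫ x, f.1 x * f'.1 x := fun _ _ => rfl
  have hQ : ∀ f f' : XS 𝒢, QQ L.cont (g ^ 2 / 2) (L.c4 / g ^ 2) f f' =
      bil (g ^ 2 / 2) (L.c4 / g ^ 2) L.v f.1 f'.1 := fun _ _ => rfl
  have hQQ : ∀ f : XS 𝒢, QQ L.cont (g ^ 2 / 2) (L.c4 / g ^ 2) f f =
      ∫ C, (g ^ 2 / 2 * g2 f.1 C + L.c4 / g ^ 2 * L.v C * f.1 C ^ 2) := by
    intro f
    rw [hQ]
    unfold bil g2
    congr 1
    funext C
    simp only [sq (f.1 C), sq (pd f.1 _ C)]
  obtain ⟨φ, hφ1, hφ2⟩ := minmax (X := XS 𝒢) (W := W) (QQ L.cont (g ^ 2 / 2) (L.c4 / g ^ 2))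
    (by
      intro x y
      rw [hQ, hQ]
      unfold bil
      congr 1
      funext C
      simp only [mul_comm]) k (fun i z => ⟨t i z, hCI i z⟩) β Λ hβ
    (by
      intro c
      refine (h1 c).trans (le_of_eq ?_)
      refine Finset.sum_congr rfl fun z _ => ?_
      rw [hin, coe_sum]
      congr 1
      funext C
      exact sq _)
    (by
      intro c
      have h3 := h2 c
      have e1 : ∀ z : W, (inner ℝ (∑ i, c i • (⟨t i z, hCI i z⟩ : XS 𝒢)) (∑ i, c i • (⟨t i z, hCI i z⟩ : XS 𝒢)) : ℝ) =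
          ∫ C, (∑ i, c i * t i z C) ^ 2 := by
        intro z
        rw [hin, coe_sum]
        congr 1
        funext C
        exact (sq _).symm
      simp only [e1, hQQ, coe_sum]
      exact h3)
  refine h P Q L 𝒢 h𝒢 g hg (k / Fintype.card W) (fun i => (φ i).1) Λ (fun i => (φ i).2) hφ1 ?_
  intro c
  have h3 := hφ2 c
  rw [hQQ, coe_sum] at h3
  exact h3

end Pool.Agent.Q75.LU.DS
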