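import Pool.Agent.Q150.LU.LOW
import Pool.Agent.Q77.LU.StmK

/-! # Project LU (helper77), job GLOW: lower bound of the levels on all gauge invariant functions
(helper75, after helper150) -/

set_option autoImplicit false
set_option linter.unusedSectionVars false

open MeasureTheory Matrix Set Filter Topology
open scoped ContDiff Matrix.Norms.Frobenius

namespace Pool.Agent.Q75.LU

open Pool.Agent.Q77.LU
open Pool.Agent.Q150.LU (lev_nonneg E_eq c4_rpow small_rpow T_comb sm_comb gi_comb norm_comb grp_int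
  sm_cont ci_c1 ci_comb adF_smul g2_nonneg)

theorem t_GLOW (h0 : S_DEC) (h1 : S_CHART) (h2 : S_GKEY) (h3 : S_FAM) (h4 : S_DSUM) (h5 : S_EZ)
    (h6 : S_FINC) : S_GLOW := by
  intro N n D l _ G hG hconn B _ _ μ _ _ hNC hD hn k ε hε
  have hfin : Finite (Subgroup.center G) := h6 N n G hG B hNC
  let _ : Fintype (Subgroup.center G) := Fintype.ofFinite _
  have hcard : Fintype.card (Fin D → Subgroup.center G) = Nat.card (Subgroup.center G) ^ D := by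
    rw [Fintype.card_fun, Fintype.card_fin, Nat.card_eq_fintype_card]
  rw [← hcard]
  obtain ⟨dc⟩ := h0 N n D l G hG B
  obtain ⟨L, hL⟩ := h1 N n D l G hG B μ hNC hD dc
  obtain ⟨lam, hlam⟩ : ∃ lam, lam = lev (vred B D) (AdS B D) (k / Fintype.card (Fin D → Subgroup.center G)) := ⟨_, rfl⟩
  have hv : L.v = vred B D := hL.v
  have hlam0 : 0 ≤ lam := by rw [hlam, ← hv]; exact lev_nonneg L.nonneg _ _
  have he0 : L.e0 = ezero n D l := by
    unfold Loc.e0; rw [hL.om, dc.sum]; exact h5 N n D l G hG B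
  obtain ⟨c, hc⟩ : ∃ c : ℝ, c = (l : ℝ) ^ (-(D : ℝ) / 3) := ⟨_, rfl⟩
  have hl : (0:ℝ) < l := by exact_mod_cast Nat.pos_of_ne_zero (NeZero.ne l)
  have hc0 : 0 < c := by rw [hc]; exact Real.rpow_pos_of_pos hl _
  have hE : ∀ g : ℝ, 0 < g → L.E g = g ^ (2 / 3 : ℝ) * c := fun g hg => by
    rw [E_eq L hg, hL.c4, c4_rpow, hc]
  obtain ⟨ε1, hε1, hε1', hε1''⟩ : ∃ ε1 : ℝ, 0 < ε1 ∧ ε1 ≤ 1 / 2 ∧ 2 * ε1 * (c * lam) ≤ ε / 2 := by
    refine ⟨min (1 / 2) (ε / (4 * (c * lam + 1))), by positivity, min_le_left _ _, ?_⟩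
    have k1 := min_le_right (1 / 2) (ε / (4 * (c * lam + 1)))
    have k2 : 0 ≤ c * lam := by positivity
    calc 2 * min (1 / 2) (ε / (4 * (c * lam + 1))) * (c * lam)
        ≤ 2 * (ε / (4 * (c * lam + 1))) * (c * lam) := by
          apply mul_le_mul_of_nonneg_right _ k2
          linarith
      _ ≤ ε / 2 := by
          have k3 : 2 * (ε / (4 * (c * lam + 1))) * (c * lam) =
              ε / 2 * ((c * lam) / (c * lam + 1)) := by
            field_simp; ring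
          rw [k3]
          have k4 : (c * lam) / (c * lam + 1) ≤ 1 := by
            rw [div_le_one (by positivity)]; linarith
          calc ε / 2 * ((c * lam) / (c * lam + 1)) ≤ ε / 2 * 1 :=
                mul_le_mul_of_nonneg_left k4 (by positivity)
            _ = ε / 2 := mul_one _
  obtain ⟨K, η, g1, hK, hη, hg1, χ, hKEY⟩ := h2 N n D l G hG hconn B μ hNC hD dc L hL ε1 hε1
  obtain ⟨g2', hg2, hs2⟩ := small_rpow (A := c * lam) (b := ε1 * η) (p := 2 / 3) (by positivity)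
    (by positivity) (by norm_num)
  obtain ⟨g3, hg3, hs3⟩ := small_rpow (A := K) (b := ε / 2) (p := 1 / 3) hK
    (by positivity) (by norm_num)
  refine ⟨min g1 (min g2' g3), by positivity, fun g hg hgg => ?_⟩
  have hgg1 : g < g1 := lt_of_lt_of_le hgg (min_le_left _ _)
  have hgg2 : g < g2' := lt_of_lt_of_le hgg ((min_le_right _ _).trans (min_le_left _ _))
  have hgg3 : g < g3 := lt_of_lt_of_le hgg ((min_le_right _ _).trans (min_le_right _ _))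
  have hsm1 := hs2 g hg hgg2
  have hgp : 0 < g ^ (2 / 3 : ℝ) := Real.rpow_pos_of_pos hg _
  have hsm2 : K * g ≤ ε / 2 * g ^ (2 / 3 : ℝ) := by
    have k1 : g = g ^ (1 / 3 : ℝ) * g ^ (2 / 3 : ℝ) := by
      rw [← Real.rpow_add hg]; norm_num
    calc K * g = (K * g ^ (1 / 3 : ℝ)) * g ^ (2 / 3 : ℝ) := by
          rw [mul_assoc, ← k1]
      _ ≤ ε / 2 * g ^ (2 / 3 : ℝ) := mul_le_mul_of_nonneg_right (hs3 g hg hgg3) hgp.le
  rw [← hlam, ← hc]
  apply le_csInf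
  · obtain ⟨E, Ψ, hΨ1, hΨ2, hΨ3⟩ := h3 N n D l G hG B μ dc L hL (by omega) hn k g hg
    exact ⟨E, Ψ, fun i => ⟨(hΨ1 i).1, (hΨ1 i).2.1⟩, hΨ2, hΨ3⟩
  rintro E ⟨Ψ, hΨ1, hΨ2, hΨ3⟩
  by_contra hcon
  push Not at hcon
  -- the family
  obtain ⟨m, hm⟩ : ∃ m : ℝ, m = (Real.sqrt ((Fintype.card (Subgroup.center G) : ℝ) ^ D))⁻¹ := ⟨_, rfl⟩
  obtain ⟨pl, hpl⟩ : ∃ pl : ((Link D l → G) → ℝ) → (Fin D → Subgroup.center G) →
      (Fin D × Fin n → ℝ) × (Fin dc.M → ℝ) → ℝ,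
    pl = fun F z => dc.pull L.r fun U => χ U * F (centre (fun i => (z i : G)) U) := ⟨_, rfl⟩
  obtain ⟨t, ht⟩ : ∃ t : Fin (k + 1) → (Fin D → Subgroup.center G) → (Fin D × Fin n → ℝ) → ℝ,
    t = fun i z C => m * L.T g (pl (Ψ i) z) C := ⟨_, rfl⟩
  have hkey := fun i => hKEY g hg hgg1 (Ψ i) (hΨ1 i).1 (hΨ1 i).2 (t i) (fun z => by rw [ht, hm, hpl])
  have htCI : ∀ i z, CI (AdS B D) (t i z) := fun i => (hkey i).1
  have hT : ∀ (cc : Fin (k + 1) → ℝ) (z : Fin D → Subgroup.center G),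
      (fun C => ∑ i, cc i * t i z C) = fun C => (Real.sqrt ((Fintype.card (Subgroup.center G) : ℝ) ^ D))⁻¹ *
        L.T g (dc.pull L.r fun U => χ U * ∑ i, cc i * Ψ i (centre (fun i => (z i : G)) U)) C := by
    intro cc z
    funext C
    have k1 : (dc.pull L.r fun U => χ U * ∑ i, cc i * Ψ i (centre (fun i => (z i : G)) U)) =
        fun x => ∑ i, cc i * pl (Ψ i) z x := by
      funext x
      rw [hpl]
      unfold Dec.pull
      simp only
      split_ifs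
      · simp only [Finset.mul_sum]; exact Finset.sum_congr rfl fun i _ => by ring
      · simp
    rw [k1, T_comb L g (f := fun i => pl (Ψ i) z) (fun i => by rw [hpl]; exact (hkey i).2.2.1 z)
      (fun i => by rw [hpl]; exact (hkey i).2.1 z) cc C, ← hm, ht, Finset.mul_sum]
    exact Finset.sum_congr rfl fun i _ => by ring
  obtain ⟨Δ, hΔ⟩ : ∃ Δ, Δ = E - L.e0 + K * g := ⟨_, rfl⟩
  obtain ⟨qz, hqz⟩ : ∃ qz : (Fin (k + 1) → ℝ) → ℝ, qz = fun cc => ∑ z, ∫ C, (g ^ 2 / 2 *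
      g2 (fun C => ∑ i, cc i * t i z C) C + L.c4 / g ^ 2 * L.v C * (∑ i, cc i * t i z C) ^ 2) := ⟨_, rfl⟩
  obtain ⟨bz, hbz⟩ : ∃ bz : (Fin (k + 1) → ℝ) → ℝ, bz = fun cc => ∑ z, ∫ C, (∑ i, cc i * t i z C) ^ 2 :=
    ⟨_, rfl⟩
  have hmain : ∀ cc : Fin (k + 1) → ℝ, (1 - ε1) * qz cc +
      η * ((∑ i, cc i ^ 2) - bz cc) ≤ Δ * ∑ i, cc i ^ 2 ∧ bz cc ≤ ∑ i, cc i ^ 2 := by
    intro cc
    obtain ⟨_, _, _, hle, hen⟩ := hKEY g hg hgg1 (fun U => ∑ i, cc i * Ψ i U)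
      (sm_comb (fun i => (hΨ1 i).1) cc) (gi_comb (fun i => (hΨ1 i).2) cc)
      (fun z C => ∑ i, cc i * t i z C) (hT cc)
    have hnorm : ∫ U, (∑ i, cc i * Ψ i U) ^ 2 ∂(Measure.pi fun _ : Link D l => μ) =
        ∑ i, cc i ^ 2 := norm_comb _ (fun i j => grp_int hG μ
          ((sm_cont (hΨ1 i).1).mul (sm_cont (hΨ1 j).1))) hΨ2 cc
    rw [hnorm] at hle hen
    have k1 := hΨ3 cc
    rw [hqz, hbz]
    refine ⟨?_, hle⟩
    rw [hΔ]
    linarith
  have hq0 : ∀ cc : Fin (k + 1) → ℝ, 0 ≤ qz cc := fun cc => by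
    rw [hqz]
    apply Finset.sum_nonneg
    intro z _
    apply integral_nonneg
    intro C
    have k1 := L.nonneg C
    have k2 := g2_nonneg (fun C => ∑ i, cc i * t i z C) C
    have k3 := L.c4pos
    positivity
  have h1ε : 0 < 1 - ε1 := by linarith
  have hΔη : Δ ≤ ε1 * η := by
    rw [hΔ, he0]
    nlinarith
  have hβ : ∀ cc : Fin (k + 1) → ℝ, (1 - ε1) * ∑ i, cc i ^ 2 ≤ bz cc := by
    intro cc
    have k1 := (hmain cc).1
    have k2 := mul_nonneg h1ε.le (hq0 cc)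
    have k3 : 0 ≤ ∑ i, cc i ^ 2 := Finset.sum_nonneg fun i _ => sq_nonneg _
    have k4 : Δ * ∑ i, cc i ^ 2 ≤ ε1 * η * ∑ i, cc i ^ 2 := mul_le_mul_of_nonneg_right hΔη k3
    have k5 : η * ((1 - ε1) * ∑ i, cc i ^ 2) ≤ η * bz cc := by
      nlinarith
    exact le_of_mul_le_mul_left k5 hη
  have hqE : ∀ cc : Fin (k + 1) → ℝ, qz cc ≤ Δ / (1 - ε1) * ∑ i, cc i ^ 2 := by
    intro cc
    obtain ⟨k1, k0⟩ := hmain cc
    have k2 : 0 ≤ η * ((∑ i, cc i ^ 2) - bz cc) := mul_nonneg hη.le (by linarith)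
    have k3 : (1 - ε1) * qz cc ≤ Δ * ∑ i, cc i ^ 2 := by linarith
    rw [div_mul_eq_mul_div, le_div_iff₀ h1ε]
    linarith
  have hΔ0 : 0 ≤ Δ / (1 - ε1) := by
    have k1 := (hq0 (fun _ => 1)).trans (hqE (fun _ => 1))
    simp only [one_pow, Finset.sum_const, Finset.card_univ, Fintype.card_fin, nsmul_eq_mul,
      mul_one] at k1
    have k2 : (0:ℝ) < ((k + 1 : ℕ) : ℝ) := by positivity
    exact nonneg_of_mul_nonneg_left k1 k2
  have hscl := h4 _ _ _ L (AdS B D) (by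
    rintro _ ⟨h, rfl⟩ s x
    exact adF_smul B h s x) g hg k t (1 - ε1) (Δ / (1 - ε1) / (1 - ε1)) h1ε htCI
    (fun cc => by
      have k1 := hβ cc
      rwa [hbz] at k1)
    (fun cc => by
      have k1 : qz cc ≤ Δ / (1 - ε1) / (1 - ε1) * bz cc := by
        refine (hqE cc).trans ?_
        have k2 : ∑ i, cc i ^ 2 ≤ bz cc / (1 - ε1) := by
          rw [le_div_iff₀ h1ε]
          linarith [hβ cc]
        calc Δ / (1 - ε1) * ∑ i, cc i ^ 2 ≤ Δ / (1 - ε1) * (bz cc / (1 - ε1)) :=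
              mul_le_mul_of_nonneg_left k2 hΔ0
          _ = Δ / (1 - ε1) / (1 - ε1) * bz cc := by ring
      rwa [hqz, hbz] at k1)
  rw [hv, ← hlam, hE g hg, div_div, le_div_iff₀ (by positivity)] at hscl
  -- conclusion
  have k1 : (1 - 2 * ε1) * (g ^ (2 / 3 : ℝ) * c * lam) ≤
      g ^ (2 / 3 : ℝ) * c * lam * ((1 - ε1) * (1 - ε1)) := by
    have : 0 ≤ g ^ (2 / 3 : ℝ) * c * lam := by positivity
    nlinarith [sq_nonneg ε1]
  have k2 : 2 * ε1 * (g ^ (2 / 3 : ℝ) * c * lam) ≤ g ^ (2 / 3 : ℝ) * (ε / 2) := by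
    calc 2 * ε1 * (g ^ (2 / 3 : ℝ) * c * lam) = g ^ (2 / 3 : ℝ) * (2 * ε1 * (c * lam)) := by ring
      _ ≤ g ^ (2 / 3 : ℝ) * (ε / 2) := mul_le_mul_of_nonneg_left hε1'' hgp.le
  rw [hΔ, he0] at hscl
  nlinarith

end Pool.Agent.Q75.LU
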