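import Pool.Agent.Q77.LU.StmH
import Pool.Agent.H906R3.YM.Conc
import Pool.Agent.H906R3.YM.Torus
import Pool.Agent.H906R3.YM.Int

/-! # Project LU (helper77), jobs JACG and IMS -/

set_option autoImplicit false

namespace Pool.Agent.Q75.LU

open MeasureTheory Matrix Set Filter Topology
open scoped ContDiff Matrix.Norms.Frobenius
open Pool.Agent.Q77.LU
open Pool.Agent.H906R3

noncomputable section

variable {N n D l : ℕ} {G : Subgroup (UU N)}

/-- The same data in the form used by the library. -/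
def fm (B : LieBasis G n) : YM.Frame G n where
  X := B.X
  ex := B.ex
  ex_eq := B.ex_eq
  orth := B.orth
  full := B.full

/-- The abstract data. -/
def ld (B : LieBasis G n) : YM.LD G N n := (fm B).toLD

lemma shift_eq (B : LieBasis G n) (e : Link D l) (a : Fin n) (t : ℝ) (U : Link D l → G) :
    (ld B).shift e a t U = Function.update U e (B.ex a t * U e) := by
  funext e'
  unfold YM.LD.shift
  by_cases h : e' = e
  · subst h
    rw [Pi.mul_apply, Pi.mulSingle_eq_same, Function.update_self]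
    rfl
  · rw [Pi.mul_apply, Pi.mulSingle_eq_of_ne h, one_mul, Function.update_of_ne h]

lemma dlink_eq [NeZero l] (B : LieBasis G n) (e : Link D l) (a : Fin n)
    (F : YM.Sm (ld B) (Link D l)) (U : Link D l → G) :
    dlink B e a F.1 U = ((ld B).Dv (e, a) F).1 U := by
  rw [YM.Dv_apply]
  unfold dlink YM.LD.dF
  simp only [shift_eq]

lemma dlink_fun [NeZero l] (B : LieBasis G n) (e : Link D l) (a : Fin n)
    (F : YM.Sm (ld B) (Link D l)) : dlink B e a F.1 = ((ld B).Dv (e, a) F).1 :=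
  funext fun U => dlink_eq B e a F U

lemma magnetic_eq [NeZero l] (B : LieBasis G n) (U : Link D l → G) :
    magnetic U = (YM.VT (ld B) D l).1 U := by
  have h1 := YM.VT_apply (L := ld B) U
  have h2 : (YM.VT (ld B) D l).1 U = (ld B).ev U (YM.VT (ld B) D l) := rfl
  rw [h2, h1]
  have h3 : ∑ p : YM.Pl D l, YM.we (ld B) (YM.plqT U p.1.1 p.1.2.1 p.1.2.2) =
      ∑ p ∈ (Finset.univ.filter fun p : (Fin D → ZMod l) × Fin D × Fin D => p.2.1 < p.2.2),
        YM.we (ld B) (YM.plqT U p.1 p.2.1 p.2.2) := by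
    rw [Finset.sum_subtype (p := fun p : (Fin D → ZMod l) × Fin D × Fin D => p.2.1 < p.2.2)]
    intro p; simp
  rw [h3, Finset.sum_filter, Fintype.sum_prod_type]
  unfold magnetic
  refine Finset.sum_congr rfl fun x _ => ?_
  rw [Fintype.sum_prod_type]
  rfl

/-- closed subgroups are compact -/
lemma compG (hG : IsClosed (G : Set (UU N))) : CompactSpace G :=
  isCompact_iff_compactSpace.1 hG.isCompact

instance sccG : SecondCountableTopology G :=
  have : SecondCountableTopology (UU N) := TopologicalSpace.Subtype.secondCountableTopology _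
  TopologicalSpace.Subtype.secondCountableTopology _

/-- the derivative along a link of a smooth function -/
lemma dlink_der [NeZero l] (B : LieBasis G n) {F : (Link D l → G) → ℝ} (hF : IsSmooth F)
    (e : Link D l) (a : Fin n) (U : Link D l → G) :
    HasDerivAt (fun t => F (Function.update U e (B.ex a t * U e))) (dlink B e a F U) 0 := by
  have h1 : F ∈ YM.Sm (ld B) (Link D l) := hF
  have h2 := YM.hasDerivAt_dF h1 e a U 0
  rw [YM.LD.shift_zero] at h2
  have h3 : (ld B).dF e a F U = dlink B e a F U := (dlink_eq B e a ⟨F, h1⟩ U).symm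
  rw [h3] at h2
  simpa only [shift_eq] using h2

lemma upd_zero [NeZero l] (B : LieBasis G n) (e : Link D l) (a : Fin n) (U : Link D l → G) :
    Function.update U e (B.ex a 0 * U e) = U := by
  have h1 := YM.LD.shift_zero (L := ld B) e a U
  rwa [shift_eq] at h1

lemma smooth_cont [NeZero l] (B : LieBasis G n) {F : (Link D l → G) → ℝ} (hF : IsSmooth F) :
    Continuous F := YM.Sm_cont (L := ld B) ⟨F, hF⟩

lemma dlink_smooth [NeZero l] (B : LieBasis G n) {F : (Link D l → G) → ℝ} (hF : IsSmooth F)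
    (e : Link D l) (a : Fin n) : IsSmooth (dlink B e a F) := by
  have h1 := ((ld B).Dv (e, a) ⟨F, hF⟩).2
  rw [← dlink_fun B e a ⟨F, hF⟩] at h1
  exact h1

lemma magnetic_smooth [NeZero l] (B : LieBasis G n) :
    IsSmooth (fun U : Link D l → G => magnetic U) := by
  have h1 := (YM.VT (ld B) D l).2
  have h2 : (YM.VT (ld B) D l).1 = fun U : Link D l → G => magnetic U :=
    funext fun U => (magnetic_eq B U).symm
  rw [h2] at h1
  exact h1

theorem t_JACG : S_JACG := by
  intro N n D l _ G hG B _ _ μ _ _ g hg h F hh hF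
  have := compG hG
  set L := ld B with hL
  set f : YM.Sm L (Link D l) := ⟨F, hF⟩ with hf
  set k : YM.Sm L (Link D l) := ⟨h, hh⟩ with hk
  have hI : ∀ j (u : YM.Sm L (Link D l)), L.I μ (L.Dv j u) = 0 := fun j u => YM.I_D_zero μ j u
  -- one direction
  have key : ∀ j : Link D l × Fin n, L.I μ (L.Dv j (L.Dv j k) * (f * f)) -
      1 / g ^ 2 * L.I μ (L.Dv j k * L.Dv j k * (f * f)) ≤ g ^ 2 * L.I μ (L.Dv j f * L.Dv j f) := by
    intro j
    have h0 := YM.I_sq_nonneg μ (g • L.Dv j f + g⁻¹ • (f * L.Dv j k))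
    have h1 : (g • L.Dv j f + g⁻¹ • (f * L.Dv j k)) * (g • L.Dv j f + g⁻¹ • (f * L.Dv j k)) =
        (g ^ 2) • (L.Dv j f * L.Dv j f) + (2 : ℝ) • (f * L.Dv j f * L.Dv j k) +
          (1 / g ^ 2) • (L.Dv j k * L.Dv j k * (f * f)) := by
      refine YM.ev_ext fun U => ?_
      simp only [map_mul, map_add, map_smul, smul_eq_mul]
      field_simp
      ring
    rw [h1, map_add, map_add, map_smul, map_smul, map_smul, smul_eq_mul, smul_eq_mul, smul_eq_mul] at h0
    have h2 := YM.I_D (L.I μ) hI j (f * f) (L.Dv j k)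
    have h3 : L.Dv j (f * f) * L.Dv j k = (2 : ℝ) • (f * L.Dv j f * L.Dv j k) := by
      rw [Derivation.leibniz]
      refine YM.ev_ext fun U => ?_
      simp only [map_mul, map_add, map_smul, smul_eq_mul]
      ring
    rw [h3, map_smul, smul_eq_mul] at h2
    have h4 : L.I μ (L.Dv j (L.Dv j k) * (f * f)) = L.I μ (f * f * L.Dv j (L.Dv j k)) := by
      rw [mul_comm]
    linarith
  -- the two sides
  have hE : energy B μ g F = g ^ 2 / 2 * (∑ j : Link D l × Fin n, L.I μ (L.Dv j f * L.Dv j f)) +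
      1 / g ^ 2 * L.I μ (YM.VT L D l * (f * f)) := by
    unfold energy
    congr 1
    · congr 1
      refine Eq.trans ?_ (Fintype.sum_prod_type fun j : Link D l × Fin n =>
        L.I μ (L.Dv j f * L.Dv j f)).symm
      refine Finset.sum_congr rfl fun e _ => Finset.sum_congr rfl fun a _ => ?_
      rw [YM.I_apply]
      refine integral_congr_ae (Filter.Eventually.of_forall fun U => ?_)
      show (dlink B e a f.1 U) ^ 2 = (L.Dv (e, a) f).1 U * (L.Dv (e, a) f).1 U
      rw [dlink_eq, sq]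
    · congr 1
      rw [YM.I_apply]
      refine integral_congr_ae (Filter.Eventually.of_forall fun U => ?_)
      show magnetic U * f.1 U ^ 2 = (YM.VT L D l).1 U * (f.1 U * f.1 U)
      rw [magnetic_eq B, sq]
  have hLHS : ∫ U, (1 / 2 * (∑ e, ∑ a, dlink B e a (dlink B e a h) U) -
      1 / (2 * g ^ 2) * (∑ e, ∑ a, dlink B e a h U ^ 2) + 1 / g ^ 2 * magnetic U) * F U ^ 2
      ∂(Measure.pi fun _ : Link D l => μ) =
      L.I μ (((1 / 2 : ℝ) • (∑ j : Link D l × Fin n, L.Dv j (L.Dv j k)) -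
        (1 / (2 * g ^ 2) : ℝ) • (∑ j : Link D l × Fin n, L.Dv j k * L.Dv j k) +
        (1 / g ^ 2 : ℝ) • YM.VT L D l) * (f * f)) := by
    rw [YM.I_apply]
    refine integral_congr_ae (Filter.Eventually.of_forall fun U => ?_)
    rw [← YM.ev_apply]
    simp only [map_mul, map_add, map_sub, map_smul, smul_eq_mul, map_sum]
    have e1 : L.ev U f = F U := rfl
    have e2 : L.ev U (YM.VT L D l) = magnetic U := (magnetic_eq B U).symm
    have e3 : ∀ j : Link D l × Fin n, L.ev U (L.Dv j k) = dlink B j.1 j.2 h U := fun j =>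
      (dlink_eq B j.1 j.2 k U).symm
    have e4 : ∀ j : Link D l × Fin n, L.ev U (L.Dv j (L.Dv j k)) =
        dlink B j.1 j.2 (dlink B j.1 j.2 h) U := by
      intro j
      have h5 : dlink B j.1 j.2 h = (L.Dv j k).1 := dlink_fun B j.1 j.2 k
      rw [h5]
      exact (dlink_eq B j.1 j.2 (L.Dv j k) U).symm
    simp only [e1, e2, e3, e4, Fintype.sum_prod_type]
    simp only [sq]
  rw [hLHS, hE]
  have hexp : L.I μ (((1 / 2 : ℝ) • (∑ j : Link D l × Fin n, L.Dv j (L.Dv j k)) -
      (1 / (2 * g ^ 2) : ℝ) • (∑ j : Link D l × Fin n, L.Dv j k * L.Dv j k) +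
      (1 / g ^ 2 : ℝ) • YM.VT L D l) * (f * f)) =
      1 / 2 * (∑ j : Link D l × Fin n, (L.I μ (L.Dv j (L.Dv j k) * (f * f)) -
        1 / g ^ 2 * L.I μ (L.Dv j k * L.Dv j k * (f * f)))) +
      1 / g ^ 2 * L.I μ (YM.VT L D l * (f * f)) := by
    rw [add_mul, sub_mul, smul_mul_assoc, smul_mul_assoc, smul_mul_assoc, Finset.sum_mul,
      Finset.sum_mul, map_add, map_sub, map_smul, map_smul, map_smul, map_sum, map_sum,
      Finset.sum_sub_distrib, ← Finset.mul_sum]
    simp only [smul_eq_mul]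
    field_simp
  rw [hexp]
  have hsum := Finset.sum_le_sum fun j (_ : j ∈ (Finset.univ : Finset (Link D l × Fin n))) => key j
  rw [← Finset.mul_sum] at hsum
  linarith

theorem t_IMS : S_IMS := by
  intro N n D l _ G hG B _ _ μ _ _ θ hθ
  have := compG hG
  have hcos : IsSmooth fun U => Real.cos (θ U) := by
    obtain ⟨f, hf, h⟩ := hθ
    exact ⟨fun M => Real.cos (f M), hf.cos, fun U => congrArg Real.cos (h U)⟩
  have hsin : IsSmooth fun U => Real.sin (θ U) := by
    obtain ⟨f, hf, h⟩ := hθ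
    exact ⟨fun M => Real.sin (f M), hf.sin, fun U => congrArg Real.sin (h U)⟩
  refine ⟨hcos, hsin, ?_⟩
  have hi : ∀ {F : (Link D l → G) → ℝ}, Continuous F →
      Integrable F (Measure.pi fun _ : Link D l => μ) := fun hF => YM.integrable_cont μ hF
  have hmul : ∀ {F H : (Link D l → G) → ℝ}, IsSmooth F → IsSmooth H → IsSmooth fun U => F U * H U := by
    rintro F H ⟨f, hf, h⟩ ⟨f', hf', h'⟩
    exact ⟨fun M => f M * f' M, hf.mul hf', fun U => congrArg₂ (fun x y : ℝ => x * y) (h U) (h' U)⟩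
  -- the bound of the gradient
  have hgc : Continuous fun U : Link D l → G => ∑ e, ∑ a, dlink B e a θ U ^ 2 :=
    continuous_finset_sum _ fun e _ => continuous_finset_sum _ fun a _ =>
      (smooth_cont B (dlink_smooth B hθ e a)).pow 2
  obtain ⟨K, hK⟩ : ∃ K : ℝ, ∀ U : Link D l → G, ∑ e, ∑ a, dlink B e a θ U ^ 2 ≤ K := by
    obtain ⟨C, hC⟩ := (isCompact_univ.image hgc).bddAbove
    exact ⟨C, fun U => hC ⟨U, trivial, rfl⟩⟩
  refine ⟨|K|, abs_nonneg _, ?_⟩
  intro g hg F hF
  set ν := Measure.pi fun _ : Link D l => μ with hν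
  have hdc : ∀ e a U, dlink B e a (fun U => Real.cos (θ U) * F U) U =
      Real.cos (θ U) * dlink B e a F U - Real.sin (θ U) * dlink B e a θ U * F U := by
    intro e a U
    have h1 := (dlink_der B hθ e a U).cos.mul (dlink_der B hF e a U)
    rw [upd_zero] at h1
    have h2 : dlink B e a (fun U => Real.cos (θ U) * F U) U = _ := h1.deriv
    rw [h2]
    ring
  have hds : ∀ e a U, dlink B e a (fun U => Real.sin (θ U) * F U) U =
      Real.sin (θ U) * dlink B e a F U + Real.cos (θ U) * dlink B e a θ U * F U := by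
    intro e a U
    have h1 := (dlink_der B hθ e a U).sin.mul (dlink_der B hF e a U)
    rw [upd_zero] at h1
    have h2 : dlink B e a (fun U => Real.sin (θ U) * F U) U = _ := h1.deriv
    rw [h2]
    ring
  have hcsq : ∀ x : ℝ, Real.cos x ^ 2 + Real.sin x ^ 2 = 1 := fun x => Real.cos_sq_add_sin_sq x
  have hFc := smooth_cont B hF
  -- kinetic terms
  have hkin : ∀ e a, (∫ U, dlink B e a (fun U => Real.cos (θ U) * F U) U ^ 2 ∂ν) +
      (∫ U, dlink B e a (fun U => Real.sin (θ U) * F U) U ^ 2 ∂ν) =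
      (∫ U, dlink B e a F U ^ 2 ∂ν) + ∫ U, dlink B e a θ U ^ 2 * F U ^ 2 ∂ν := by
    intro e a
    have c1 := smooth_cont B (dlink_smooth B (hmul hcos hF) e a)
    have c2 := smooth_cont B (dlink_smooth B (hmul hsin hF) e a)
    have c3 := smooth_cont B (dlink_smooth B hF e a)
    have c4 := smooth_cont B (dlink_smooth B hθ e a)
    have i1 : Integrable (fun U => dlink B e a (fun U => Real.cos (θ U) * F U) U ^ 2) ν := hi (c1.pow 2)
    have i2 : Integrable (fun U => dlink B e a (fun U => Real.sin (θ U) * F U) U ^ 2) ν := hi (c2.pow 2)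
    have i3 : Integrable (fun U => dlink B e a F U ^ 2) ν := hi (c3.pow 2)
    have i4 : Integrable (fun U => dlink B e a θ U ^ 2 * F U ^ 2) ν := hi ((c4.pow 2).mul (hFc.pow 2))
    rw [← integral_add i1 i2, ← integral_add i3 i4]
    refine integral_congr_ae (Eventually.of_forall fun U => ?_)
    simp only [hdc, hds]
    have h1 := hcsq (θ U)
    have h2 : Real.sin (θ U) ^ 2 = 1 - Real.cos (θ U) ^ 2 := by linarith
    ring_nf
    rw [h2]
    ring
  have hpot : (∫ U, magnetic U * (Real.cos (θ U) * F U) ^ 2 ∂ν) +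
      (∫ U, magnetic U * (Real.sin (θ U) * F U) ^ 2 ∂ν) = ∫ U, magnetic U * F U ^ 2 ∂ν := by
    have c0 := smooth_cont B (magnetic_smooth (D := D) (l := l) B)
    have c1 := smooth_cont B (hmul hcos hF)
    have c2 := smooth_cont B (hmul hsin hF)
    have i1 : Integrable (fun U => magnetic U * (Real.cos (θ U) * F U) ^ 2) ν := hi (c0.mul (c1.pow 2))
    have i2 : Integrable (fun U => magnetic U * (Real.sin (θ U) * F U) ^ 2) ν := hi (c0.mul (c2.pow 2))
    rw [← integral_add i1 i2]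
    refine integral_congr_ae (Eventually.of_forall fun U => ?_)
    simp only
    have h1 := hcsq (θ U)
    have h2 : Real.sin (θ U) ^ 2 = 1 - Real.cos (θ U) ^ 2 := by linarith
    ring_nf
    rw [h2]
    ring
  have hgr : ∑ e, ∑ a, (∫ U, dlink B e a θ U ^ 2 * F U ^ 2 ∂ν) ≤ |K| * ∫ U, F U ^ 2 ∂ν := by
    have h1 : ∑ e, ∑ a, (∫ U, dlink B e a θ U ^ 2 * F U ^ 2 ∂ν) =
        ∫ U, (∑ e, ∑ a, dlink B e a θ U ^ 2) * F U ^ 2 ∂ν := by
      have h2 : ∀ e a, Integrable (fun U => dlink B e a θ U ^ 2 * F U ^ 2) ν := fun e a =>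
        hi (((smooth_cont B (dlink_smooth B hθ e a)).pow 2).mul (hFc.pow 2))
      have h3 : ∀ e, ∑ a, (∫ U, dlink B e a θ U ^ 2 * F U ^ 2 ∂ν) =
          ∫ U, ∑ a, dlink B e a θ U ^ 2 * F U ^ 2 ∂ν := fun e =>
        (integral_finset_sum _ fun a _ => h2 e a).symm
      simp only [h3]
      rw [← integral_finset_sum _ fun e _ => integrable_finset_sum _ fun a _ => h2 e a]
      refine integral_congr_ae (Eventually.of_forall fun U => ?_)
      simp only [Finset.sum_mul]
    rw [h1, ← integral_const_mul]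
    apply integral_mono (hi (hgc.mul (hFc.pow 2))) (hi (continuous_const.mul (hFc.pow 2)))
    intro U
    exact mul_le_mul_of_nonneg_right ((hK U).trans (le_abs_self K)) (sq_nonneg _)
  unfold energy
  rw [← hν]
  have hsum : (∑ e, ∑ a, ∫ U, dlink B e a (fun U => Real.cos (θ U) * F U) U ^ 2 ∂ν) +
      (∑ e, ∑ a, ∫ U, dlink B e a (fun U => Real.sin (θ U) * F U) U ^ 2 ∂ν) =
      (∑ e, ∑ a, ∫ U, dlink B e a F U ^ 2 ∂ν) +
      ∑ e, ∑ a, ∫ U, dlink B e a θ U ^ 2 * F U ^ 2 ∂ν := by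
    rw [← Finset.sum_add_distrib, ← Finset.sum_add_distrib]
    refine Finset.sum_congr rfl fun e _ => ?_
    rw [← Finset.sum_add_distrib, ← Finset.sum_add_distrib]
    exact Finset.sum_congr rfl fun a _ => hkin e a
  have hgg : 0 ≤ g ^ 2 := sq_nonneg g
  have hF0 : 0 ≤ ∫ U, F U ^ 2 ∂ν := integral_nonneg fun U => sq_nonneg _
  have h1 := mul_le_mul_of_nonneg_left hgr (by positivity : 0 ≤ g ^ 2 / 2)
  have h2 : 0 ≤ |K| * g ^ 2 * ∫ U, F U ^ 2 ∂ν := by positivity
  have h3 : 1 / g ^ 2 * (∫ U, magnetic U * (Real.cos (θ U) * F U) ^ 2 ∂ν) +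
      1 / g ^ 2 * (∫ U, magnetic U * (Real.sin (θ U) * F U) ^ 2 ∂ν) =
      1 / g ^ 2 * ∫ U, magnetic U * F U ^ 2 ∂ν := by
    rw [← mul_add, hpot]
  have h4 : g ^ 2 / 2 * (∑ e, ∑ a, ∫ U, dlink B e a (fun U => Real.cos (θ U) * F U) U ^ 2 ∂ν) +
      g ^ 2 / 2 * (∑ e, ∑ a, ∫ U, dlink B e a (fun U => Real.sin (θ U) * F U) U ^ 2 ∂ν) =
      g ^ 2 / 2 * (∑ e, ∑ a, ∫ U, dlink B e a F U ^ 2 ∂ν) +
      g ^ 2 / 2 * ∑ e, ∑ a, ∫ U, dlink B e a θ U ^ 2 * F U ^ 2 ∂ν := by
    rw [← mul_add, hsum, mul_add]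
  linarith

end

end Pool.Agent.Q75.LU
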