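import Pool.Agent.Q77.LU.StmH

/-! # Project LU (helper77), jobs TINV and SCL -/

set_option autoImplicit false

namespace Pool.Agent.Q75.LU

open MeasureTheory Set Filter Topology
open scoped ContDiff
open Pool.Agent.Q77.LU

lemma n2_nonneg {ι : Type} [Fintype ι] (x : ι → ℝ) : 0 ≤ n2 x := Finset.sum_nonneg fun i _ => sq_nonneg _

lemma n2_eq_zero {ι : Type} [Fintype ι] {x : ι → ℝ} (h : n2 x = 0) : x = 0 := by
  funext i
  have h1 := (Finset.sum_eq_zero_iff_of_nonneg (fun i _ => sq_nonneg (x i))).1 h i (Finset.mem_univ i)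
  simpa using h1

lemma n2_cont {ι : Type} [Fintype ι] : Continuous (n2 : (ι → ℝ) → ℝ) := by
  unfold n2
  fun_prop

/-- the balls have finite positive measure -/
lemma n2_ball {ι : Type} [Fintype ι] : volume {x : ι → ℝ | n2 x < 1} ≠ 0 ∧ volume {x : ι → ℝ | n2 x < 1} ≠ ⊤ := by
  refine ⟨?_, ?_⟩
  · have h1 : IsOpen {x : ι → ℝ | n2 x < 1} := isOpen_lt n2_cont continuous_const
    exact (h1.measure_pos volume ⟨0, by simp [n2]⟩).ne'
  · have h1 : {x : ι → ℝ | n2 x < 1} ⊆ Icc (fun _ => -1) (fun _ => 1) := by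
      intro x hx
      have h2 : ∀ i, x i ^ 2 ≤ 1 := by
        intro i
        have h3 : x i ^ 2 ≤ n2 x := Finset.single_le_sum (f := fun i => x i ^ 2)
          (fun i _ => sq_nonneg (x i)) (Finset.mem_univ i)
        exact h3.trans (le_of_lt hx)
      exact ⟨fun i => (abs_le.1 ((sq_le_one_iff_abs_le_one _).1 (h2 i))).1,
        fun i => (abs_le.1 ((sq_le_one_iff_abs_le_one _).1 (h2 i))).2⟩
    exact ((measure_mono h1).trans_lt isCompact_Icc.measure_lt_top).ne

/-- a linear map which preserves the length preserves the integral -/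
lemma iso_integral {Q : Type} [Fintype Q] (τ : (Q → ℝ) →ₗ[ℝ] (Q → ℝ)) (hτ : ∀ a, n2 (τ a) = n2 a)
    (F : (Q → ℝ) → ℝ) : ∫ a, F (τ a) = ∫ a, F a := by
  have hinj : Function.Injective τ := by
    rw [← LinearMap.ker_eq_bot, LinearMap.ker_eq_bot']
    intro a ha
    apply n2_eq_zero
    rw [← hτ, ha]
    simp [n2]
  set e := (LinearEquiv.ofInjectiveEndo τ hinj).toContinuousLinearEquiv with he
  have hee : ∀ a, e a = τ a := fun a => rfl
  have hdet : LinearMap.det τ ≠ 0 := by
    have h1 : LinearMap.det ((LinearEquiv.ofInjectiveEndo τ hinj : (Q → ℝ) ≃ₗ[ℝ] (Q → ℝ)) :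
        (Q → ℝ) →ₗ[ℝ] (Q → ℝ)) ≠ 0 := (LinearEquiv.isUnit_det' _).ne_zero
    have h2 : ((LinearEquiv.ofInjectiveEndo τ hinj : (Q → ℝ) ≃ₗ[ℝ] (Q → ℝ)) :
        (Q → ℝ) →ₗ[ℝ] (Q → ℝ)) = τ := by
      ext a
      rfl
    rwa [h2] at h1
  have hpre := Measure.addHaar_preimage_linearMap (volume : Measure (Q → ℝ)) hdet {x : Q → ℝ | n2 x < 1}
  have h1 : τ ⁻¹' {x : Q → ℝ | n2 x < 1} = {x : Q → ℝ | n2 x < 1} := by
    ext a
    simp [hτ]
  rw [h1] at hpre
  obtain ⟨hm0, hm1⟩ := n2_ball (ι := Q)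
  have hone : ENNReal.ofReal |(LinearMap.det τ)⁻¹| = 1 := by
    have h3 : ENNReal.ofReal |(LinearMap.det τ)⁻¹| * volume {x : Q → ℝ | n2 x < 1} =
        1 * volume {x : Q → ℝ | n2 x < 1} := by
      rw [one_mul]
      exact hpre.symm
    exact (ENNReal.mul_left_inj hm0 hm1).1 h3
  have hmap : Measure.map e volume = volume := by
    have h4 := Real.map_linearMap_volume_pi_eq_smul_volume_pi hdet
    rw [hone, one_smul] at h4
    exact h4
  have h5 := e.toHomeomorph.measurableEmbedding.integral_map (μ := volume) F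
  have h6 : Measure.map (⇑e.toHomeomorph) volume = volume := hmap
  rw [h6] at h5
  exact h5.symm

lemma gau_eq {Q : Type} [Fintype Q] (om : Q → ℝ) (g : ℝ) (a : Q → ℝ) :
    gau om g a = (∏ i, (om i / (Real.pi * g ^ 2)) ^ (1 / 4 : ℝ)) *
      Real.exp (-((∑ i, om i * a i ^ 2) / (2 * g ^ 2))) := by
  unfold gau
  rw [Finset.prod_mul_distrib, ← Real.exp_sum]
  congr 2
  rw [Finset.sum_neg_distrib, Finset.sum_div]

theorem t_TINV : S_TINV := by
  intro P Q _ _ _ _ L σ τ hσ hτ hom hJ g hg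
  have hgau : ∀ a, gau L.om g (τ a) = gau L.om g a := by
    intro a
    rw [gau_eq, gau_eq, hom]
  refine ⟨?_, ?_⟩
  · intro f hf C
    unfold Loc.T
    rw [← iso_integral τ hτ fun a => f (σ C, a) * Real.sqrt (L.J (σ C, a)) * gau L.om g a]
    apply integral_congr_ae
    refine Eventually.of_forall fun a => ?_
    simp only [hf, hJ, hgau]
  · intro ψ δ hψ C a
    unfold Loc.trial
    simp only [hJ, hgau, hτ]
    rw [← hσ, hψ]

theorem t_SCL : S_SCL := by
  intro P Q _ _ _ _ L 𝒢 h𝒢 g hg k φ E hCI horth hE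
  -- the scale
  have hc4 := L.c4pos
  have hs : 0 < L.s g := Real.rpow_pos_of_pos (by positivity) _
  set s := L.s g with hsd
  have hs6 : s ^ 6 = g ^ 4 / L.c4 := by
    rw [hsd]
    unfold Loc.s
    rw [← Real.rpow_natCast, ← Real.rpow_mul (by positivity)]
    norm_num
  have hEg : L.E g = g ^ 2 / s ^ 2 := rfl
  have hE0 : 0 < L.E g := by
    rw [hEg]
    positivity
  set p : ℝ := (Fintype.card P : ℝ) with hp
  set m : ℝ := s ^ (p / 2) with hm
  have hm0 : 0 < m := Real.rpow_pos_of_pos hs _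
  have hm2 : m ^ 2 = s ^ (Fintype.card P) := by
    rw [hm, ← Real.rpow_natCast, ← Real.rpow_mul hs.le, ← Real.rpow_natCast]
    congr 1
    rw [hp]
    push_cast
    ring
  -- integrals
  have hint : ∀ F : (P → ℝ) → ℝ, ∫ y, F (s • y) = (s ^ (Fintype.card P))⁻¹ * ∫ y, F y := by
    intro F
    have h1 := Measure.integral_comp_smul (volume : Measure (P → ℝ)) F s
    rw [h1, Module.finrank_fintype_fun_eq_card, smul_eq_mul, abs_of_pos (by positivity)]
  set ψ : Fin (k + 1) → (P → ℝ) → ℝ := fun i y => m * φ i (s • y) with hψ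
  have hsum : ∀ (c : Fin (k + 1) → ℝ) (y : P → ℝ), ∑ i, c i * ψ i y = m * (∑ i, c i * φ i (s • y)) := by
    intro c y
    rw [Finset.mul_sum]
    refine Finset.sum_congr rfl fun i _ => ?_
    rw [hψ]
    ring
  have hCIψ : ∀ i, CI 𝒢 (ψ i) := by
    intro i
    have hsm : ContDiff ℝ ∞ fun y : P → ℝ => s • y := contDiff_const_smul s
    refine ⟨contDiff_const.mul ((hCI i).sm.comp hsm), ?_, ?_⟩
    · have h1 := (hCI i).supp.comp_homeomorph (Homeomorph.smulOfNeZero s hs.ne')
      exact h1.mul_left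
    · intro σ hσ x
      simp only [hψ]
      rw [← h𝒢 σ hσ, (hCI i).inv σ hσ]
  have horthψ : ∀ i j, ∫ C, ψ i C * ψ j C = if i = j then 1 else 0 := by
    intro i j
    rw [← horth i j]
    have h1 : (fun C => ψ i C * ψ j C) = fun C => (fun y => m ^ 2 * (φ i y * φ j y)) (s • C) := by
      funext C
      simp only [hψ]
      ring
    rw [h1]
    refine (hint fun y => m ^ 2 * (φ i y * φ j y)).trans ?_
    rw [integral_const_mul, hm2, ← mul_assoc, inv_mul_cancel₀ (by positivity), one_mul]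
  -- the gradient
  have hgrad : ∀ (F : (P → ℝ) → ℝ), Differentiable ℝ F → ∀ y,
      g2 (fun y => m * F (s • y)) y = m ^ 2 * s ^ 2 * g2 F (s • y) := by
    intro F hF y
    unfold g2 pd
    rw [Finset.mul_sum]
    refine Finset.sum_congr rfl fun i _ => ?_
    have h1 : HasFDerivAt (fun y : P → ℝ => s • y) (s • ContinuousLinearMap.id ℝ (P → ℝ)) y :=
      (hasFDerivAt_id y).const_smul s
    have h2 : HasFDerivAt (fun y => m * F (s • y))
        (m • (fderiv ℝ F (s • y)).comp (s • ContinuousLinearMap.id ℝ (P → ℝ))) y :=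
      ((hF (s • y)).hasFDerivAt.comp y h1).const_mul m
    rw [h2.fderiv]
    simp only [ContinuousLinearMap.comp_smul, ContinuousLinearMap.comp_id, smul_apply, smul_eq_mul]
    ring
  have hlev : lev L.v 𝒢 k ≤ E / L.E g := by
    apply csInf_le
    · refine ⟨0, ?_⟩
      rintro E' ⟨χ, _, _, h3⟩
      have h4 := h3 (Pi.single 0 1)
      have h5 : ∑ i, (Pi.single 0 1 : Fin (k + 1) → ℝ) i ^ 2 = 1 := by
        rw [Finset.sum_eq_single 0]
        · simp
        · intro b _ hb
          simp [Pi.single_eq_of_ne hb]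
        · simp
      rw [h5, mul_one] at h4
      refine le_trans ?_ h4
      apply integral_nonneg
      intro C
      have h6 : 0 ≤ g2 (fun C => ∑ i, (Pi.single 0 1 : Fin (k + 1) → ℝ) i * χ i C) C :=
        Finset.sum_nonneg fun i _ => sq_nonneg _
      have h7 := mul_nonneg (L.nonneg C)
        (sq_nonneg (∑ i, (Pi.single 0 1 : Fin (k + 1) → ℝ) i * χ i C))
      simp only [Pi.zero_apply]
      linarith
    · refine ⟨ψ, hCIψ, horthψ, ?_⟩
      intro c
      set F : (P → ℝ) → ℝ := fun y => ∑ i, c i * φ i y with hF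
      have hFd : Differentiable ℝ F := by
        have : ContDiff ℝ ∞ F := ContDiff.sum fun i _ => contDiff_const.mul (hCI i).sm
        exact this.differentiable (by simp)
      have h1 : (fun C => ∑ i, c i * ψ i C) = fun y => m * F (s • y) := by
        funext y
        rw [hsum]
      rw [h1]
      unfold qf
      have h2 : ∀ C, 1 / 2 * g2 (fun y => m * F (s • y)) C + L.v C * (m * F (s • C)) ^ 2 =
          (fun y => s ^ (Fintype.card P) * ((L.E g)⁻¹ *
            (g ^ 2 / 2 * g2 F y + L.c4 / g ^ 2 * L.v y * F y ^ 2))) (s • C) := by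
        intro C
        simp only
        rw [hgrad F hFd, hm2, mul_pow, hm2]
        have h3 : L.v (s • C) = s ^ 4 * L.v C := L.hom s C
        rw [h3, hEg]
        have h4 : L.c4 = g ^ 4 / s ^ 6 := by
          rw [hs6]
          field_simp
        rw [h4]
        field_simp
      rw [funext h2]
      rw [hint (fun y => s ^ (Fintype.card P) * ((L.E g)⁻¹ *
            (g ^ 2 / 2 * g2 F y + L.c4 / g ^ 2 * L.v y * F y ^ 2))), integral_const_mul,
        integral_const_mul, ← mul_assoc, inv_mul_cancel₀ (by positivity), one_mul]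
      calc (L.E g)⁻¹ * ∫ y, (g ^ 2 / 2 * g2 F y + L.c4 / g ^ 2 * L.v y * F y ^ 2)
          ≤ (L.E g)⁻¹ * (E * ∑ i, c i ^ 2) := mul_le_mul_of_nonneg_left (hE c) (inv_pos.2 hE0).le
        _ = E / L.E g * ∑ i, c i ^ 2 := by
          field_simp
  calc L.E g * lev L.v 𝒢 k ≤ L.E g * (E / L.E g) := mul_le_mul_of_nonneg_left hlev hE0.le
    _ = E := by field_simp

end Pool.Agent.Q75.LU
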